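import Pool.Agent.H902R2.HO.Stubs2

/-!
ROOM HO (helper605): LOC, uniform expansion of the curvature polynomial in the chart.
-/

namespace H605HO

open H902HO

/-- naturality of `PPc` -/
theorem map_PPc {R R' : Type*} [Add R] [Sub R] [Mul R] [Neg R] [Add R'] [Sub R'] [Mul R'] [Neg R']
    (f : R → R') (hadd : ∀ a b, f (a + b) = f a + f b) (hsub : ∀ a b, f (a - b) = f a - f b)
    (hmul : ∀ a b, f (a * b) = f a * f b) (hneg : ∀ a, f (-a) = -f a)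
    (o i : R) (w q : Sym R) (v : T R)
    (e l c s c1 s1 c2 s2 ca sa cb sb g1 g2 g3 g4 : R) :
    f (PPc o i w q v e l c s c1 s1 c2 s2 ca sa cb sb g1 g2 g3 g4) =
      PPc (f o) (f i) (w.map f) (q.map f) (v.map f) (f e) (f l) (f c) (f s) (f c1) (f s1)
        (f c2) (f s2) (f ca) (f sa) (f cb) (f sb) (f g1) (f g2) (f g3) (f g4) := by
  have h1 : T.map f (cy1 o c s c1 s1 c2 s2) =
      cy1 (f o) (f c) (f s) (f c1) (f s1) (f c2) (f s2) := by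
    ext <;> simp [T.map, cy1, cu1, cu2, hadd, hmul, hneg]
  have h2 : T.map f (cy2 o c s c1 s1 c2 s2) =
      cy2 (f o) (f c) (f s) (f c1) (f s1) (f c2) (f s2) := by
    ext <;> simp [T.map, cy2, cu1, cu2, hadd, hmul, hneg]
  have h3 : T.map f (cy3 c1 s1 c2 s2) = cy3 (f c1) (f s1) (f c2) (f s2) := by
    ext <;> simp [T.map, cy3, hmul, hneg]
  have hO := ohom_map f hadd hsub hmul hneg w q v
  have e1 : T.map f (⟨i, o, o⟩ : T R) = ⟨f i, f o, f o⟩ := rfl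
  have e2 : T.map f (⟨o, i, o⟩ : T R) = ⟨f o, f i, f o⟩ := rfl
  have e3 : T.map f (⟨o, o, i⟩ : T R) = ⟨f o, f o, f i⟩ := rfl
  have hap : ∀ a : T R, T.map f (w.ap a) = (w.map f).ap (T.map f a) := hO.W
  have hcr : ∀ a b : T R, T.map f (T.cr a b) = T.cr (T.map f a) (T.map f b) := hO.cr
  unfold PPc PPn
  rw [hO.map_PP]
  simp only [OHom.mp, e1, e2, e3, hO.vadd, hO.vneg, hO.smul, hcr, hap, h1, h2, h3]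

theorem abs_mul_le' {a b A B : ℝ} (ha : |a| ≤ A) (hb : |b| ≤ B) : |a * b| ≤ A * B := by
  rw [abs_mul]
  exact mul_le_mul ha hb (abs_nonneg _) ((abs_nonneg _).trans ha)

theorem abs_add3 {a b c A B C : ℝ} (ha : |a| ≤ A) (hb : |b| ≤ B) (hc : |c| ≤ C) :
    |a + b + c| ≤ A + B + C :=
  (abs_add_le _ _).trans (add_le_add ((abs_add_le _ _).trans (add_le_add ha hb)) hc)

/-- components at most `1` -/
def Cp (a : T ℝ) : Prop := |a.x| ≤ 1 ∧ |a.y| ≤ 1 ∧ |a.z| ≤ 1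

/-- entries at most `M` -/
def Ep (M : ℝ) (w : Sym ℝ) : Prop :=
  |w.xx| ≤ M ∧ |w.xy| ≤ M ∧ |w.xz| ≤ M ∧ |w.yy| ≤ M ∧ |w.yz| ≤ M ∧ |w.zz| ≤ M

theorem Cp_of {a : T ℝ} (h : T.dot a a = 1) : Cp a := by
  unfold T.dot at h
  refine ⟨?_, ?_, ?_⟩ <;> rw [abs_le_one_iff_mul_self_le_one] <;>
    nlinarith [mul_self_nonneg a.x, mul_self_nonneg a.y, mul_self_nonneg a.z]

theorem frame3 {x1 x2 x3 : T ℝ} (h : IsFrame x1 x2 x3) : T.dot x3 x3 = 1 := by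
  have h1 := h.d11
  have h2 := h.d22
  have h3 := h.d12
  rw [← h.cr]
  simp only [T.dot, T.cr] at h1 h2 h3 ⊢
  linear_combination (x2.x * x2.x + x2.y * x2.y + x2.z * x2.z) * h1 + h2 -
    (x1.x * x2.x + x1.y * x2.y + x1.z * x2.z) * h3

theorem dot_ap_le {M : ℝ} {w : Sym ℝ} {a b : T ℝ} (hw : Ep M w) (ha : Cp a) (hb : Cp b) :
    |T.dot a (w.ap b)| ≤ 9 * M := by
  obtain ⟨h1, h2, h3, h4, h5, h6⟩ := hw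
  obtain ⟨a1, a2, a3⟩ := ha
  obtain ⟨b1, b2, b3⟩ := hb
  unfold T.dot Sym.ap
  have k1 := abs_mul_le' a1 (abs_add3 (abs_mul_le' h1 b1) (abs_mul_le' h2 b2) (abs_mul_le' h3 b3))
  have k2 := abs_mul_le' a2 (abs_add3 (abs_mul_le' h2 b1) (abs_mul_le' h4 b2) (abs_mul_le' h5 b3))
  have k3 := abs_mul_le' a3 (abs_add3 (abs_mul_le' h3 b1) (abs_mul_le' h5 b2) (abs_mul_le' h6 b3))
  refine (abs_add3 k1 k2 k3).trans (le_of_eq ?_)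
  ring

theorem Ep_frS {M : ℝ} {w : Sym ℝ} {x1 x2 x3 : T ℝ} (hw : Ep M w) (h1 : Cp x1) (h2 : Cp x2)
    (h3 : Cp x3) : Ep (9 * M) (frS w x1 x2 x3) :=
  ⟨dot_ap_le hw h1 h1, dot_ap_le hw h1 h2, dot_ap_le hw h1 h3, dot_ap_le hw h2 h2,
    dot_ap_le hw h2 h3, dot_ap_le hw h3 h3⟩

theorem dot_le {a b : T ℝ} (ha : Cp a) (hb : Cp b) : |T.dot a b| ≤ 3 := by
  obtain ⟨a1, a2, a3⟩ := ha
  obtain ⟨b1, b2, b3⟩ := hb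
  unfold T.dot
  refine (abs_add3 (abs_mul_le' a1 b1) (abs_mul_le' a2 b2) (abs_mul_le' a3 b3)).trans
    (le_of_eq ?_)
  ring

/-- all parameters -/
structure Th (Lam : ℝ) where
  μ : ℝ
  lam : ℝ
  x1 : T ℝ
  x2 : T ℝ
  x3 : T ℝ
  c : ℝ
  s : ℝ
  o1 : ℝ
  o2 : ℝ
  r : ℝ
  k : ℝ
  g1 : ℝ
  g2 : ℝ
  g3 : ℝ
  g4 : ℝ
  e : ℝ
  hμ0 : 0 ≤ μ
  hμ1 : μ ≤ 1
  hlam0 : 0 ≤ lam
  hlam1 : lam ≤ Lam
  hfr : IsFrame x1 x2 x3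
  hcs : c ^ 2 + s ^ 2 = 1
  hdir : o1 ^ 2 + o2 ^ 2 + r ^ 2 + k ^ 2 + g1 ^ 2 + g2 ^ 2 + g3 ^ 2 + g4 ^ 2 + e ^ 2 = 1

namespace Th

variable {Lam : ℝ} (θ : Th Lam)

theorem le_of_sq {x : ℝ} (h : x ^ 2 ≤ 1) : |x| ≤ 1 := by
  rw [abs_le_one_iff_mul_self_le_one]
  nlinarith

theorem bc : |θ.c| ≤ 1 := le_of_sq (by nlinarith [θ.hcs, sq_nonneg θ.s])
theorem bs : |θ.s| ≤ 1 := le_of_sq (by nlinarith [θ.hcs, sq_nonneg θ.c])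

theorem bdir : θ.o1 ^ 2 ≤ 1 ∧ θ.o2 ^ 2 ≤ 1 ∧ θ.r ^ 2 ≤ 1 ∧ θ.k ^ 2 ≤ 1 ∧ θ.g1 ^ 2 ≤ 1 ∧
    θ.g2 ^ 2 ≤ 1 ∧ θ.g3 ^ 2 ≤ 1 ∧ θ.g4 ^ 2 ≤ 1 ∧ θ.e ^ 2 ≤ 1 := by
  have h := θ.hdir
  have h1 := sq_nonneg θ.o1
  have h2 := sq_nonneg θ.o2
  have h3 := sq_nonneg θ.r
  have h4 := sq_nonneg θ.k
  have h5 := sq_nonneg θ.g1
  have h6 := sq_nonneg θ.g2
  have h7 := sq_nonneg θ.g3
  have h8 := sq_nonneg θ.g4
  have h9 := sq_nonneg θ.e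
  refine ⟨?_, ?_, ?_, ?_, ?_, ?_, ?_, ?_, ?_⟩ <;> linarith

theorem bo1 : |θ.o1| ≤ 1 := le_of_sq θ.bdir.1
theorem bo2 : |θ.o2| ≤ 1 := le_of_sq θ.bdir.2.1
theorem br : |θ.r| ≤ 1 := le_of_sq θ.bdir.2.2.1
theorem bk : |θ.k| ≤ 1 := le_of_sq θ.bdir.2.2.2.1
theorem bg1 : |θ.g1| ≤ 1 := le_of_sq θ.bdir.2.2.2.2.1
theorem bg2 : |θ.g2| ≤ 1 := le_of_sq θ.bdir.2.2.2.2.2.1
theorem bg3 : |θ.g3| ≤ 1 := le_of_sq θ.bdir.2.2.2.2.2.2.1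
theorem bg4 : |θ.g4| ≤ 1 := le_of_sq θ.bdir.2.2.2.2.2.2.2.1
theorem be : |θ.e| ≤ 1 := le_of_sq θ.bdir.2.2.2.2.2.2.2.2

theorem bl : |θ.lam * θ.e ^ 2| ≤ Lam := by
  have h1 := θ.bdir.2.2.2.2.2.2.2.2
  have h2 := sq_nonneg θ.e
  rw [abs_of_nonneg (mul_nonneg θ.hlam0 h2)]
  calc θ.lam * θ.e ^ 2 ≤ θ.lam * 1 := mul_le_mul_of_nonneg_left h1 θ.hlam0
    _ ≤ Lam := by rw [mul_one]; exact θ.hlam1

theorem cx1 : Cp θ.x1 := Cp_of θ.hfr.d11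
theorem cx2 : Cp θ.x2 := Cp_of θ.hfr.d22
theorem cx3 : Cp θ.x3 := Cp_of (frame3 θ.hfr)

theorem bw : Ep 27 (frS (W0 θ.μ) θ.x1 θ.x2 θ.x3) := by
  have hμ : |θ.μ| ≤ 3 := by
    rw [abs_of_nonneg θ.hμ0]
    linarith [θ.hμ1]
  have h : Ep 3 (W0 θ.μ) := by
    refine ⟨?_, ?_, hμ, ?_, ?_, ?_⟩ <;> simp [W0]
  have := Ep_frS h θ.cx1 θ.cx2 θ.cx3
  norm_num at this
  exact this

theorem bq : Ep 27 (frS Q0 θ.x1 θ.x2 θ.x3) := by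
  have h : Ep 3 Q0 := by
    refine ⟨?_, ?_, ?_, ?_, ?_, ?_⟩ <;> simp [Q0]
  have := Ep_frS h θ.cx1 θ.cx2 θ.cx3
  norm_num at this
  exact this

theorem cv0 : Cp v0 := by
  refine ⟨?_, ?_, ?_⟩ <;> simp [v0]

end Th

instance fact_one : Fact ((1 : ℝ) ≤ 1) := ⟨le_refl 1⟩

/-- constants -/
def aC {Θ : Type} (f : Θ → ℝ) (C : ℝ) (hC : 0 ≤ C) (hf : ∀ θ, |f θ| ≤ C) : AR Θ 1 :=
  ⟨(fun θ _ => f θ, fun θ => ⟨f θ, 0, 0⟩), Approx.cst C hf hC⟩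
/-- linear functions -/
def aL {Θ : Type} (f : Θ → ℝ) (C : ℝ) (hC : 0 ≤ C) (hf : ∀ θ, |f θ| ≤ C) : AR Θ 1 :=
  ⟨(fun θ t => f θ * t, fun θ => ⟨0, f θ, 0⟩), Approx.lin C hf hC⟩
/-- quadratic functions -/
def aQ {Θ : Type} (f : Θ → ℝ) (C : ℝ) (hC : 0 ≤ C) (hf : ∀ θ, |f θ| ≤ C) : AR Θ 1 :=
  ⟨(fun θ t => f θ * t ^ 2, fun θ => ⟨0, 0, f θ⟩), Approx.quad C hf hC⟩
/-- square roots -/
noncomputable def aS {Θ : Type} (f : Θ → ℝ) (hf : ∀ θ, |f θ| ≤ 1) : AR Θ 1 :=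
  ⟨(fun θ t => √(1 - (f θ * t) ^ 2), fun θ => ⟨1, 0, -(f θ ^ 2 / 2)⟩),
    Approx.sqrt (le_refl 1) hf⟩

/-- constant matrices -/
def aSym {Θ : Type} (w : Θ → Sym ℝ) (C : ℝ) (hC : 0 ≤ C) (hw : ∀ θ, Ep C (w θ)) :
    Sym (AR Θ 1) :=
  ⟨aC (fun θ => (w θ).xx) C hC fun θ => (hw θ).1,
    aC (fun θ => (w θ).xy) C hC fun θ => (hw θ).2.1,
    aC (fun θ => (w θ).xz) C hC fun θ => (hw θ).2.2.1,
    aC (fun θ => (w θ).yy) C hC fun θ => (hw θ).2.2.2.1,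
    aC (fun θ => (w θ).yz) C hC fun θ => (hw θ).2.2.2.2.1,
    aC (fun θ => (w θ).zz) C hC fun θ => (hw θ).2.2.2.2.2⟩

/-- the element of the ring of approximated functions -/
noncomputable def elt (Lam : ℝ) (hL : 0 ≤ Lam) : AR (Th Lam) 1 :=
  PPc (aC (fun _ => 0) 1 zero_le_one fun _ => by simp)
    (aC (fun _ => 1) 1 zero_le_one fun _ => by simp)
    (aSym (fun θ => frS (W0 θ.μ) θ.x1 θ.x2 θ.x3) 27 (by norm_num) Th.bw)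
    (aSym (fun θ => frS Q0 θ.x1 θ.x2 θ.x3) 27 (by norm_num) Th.bq)
    ⟨aC (fun θ => T.dot θ.x1 v0) 3 (by norm_num) fun θ => dot_le θ.cx1 Th.cv0,
      aC (fun θ => T.dot θ.x2 v0) 3 (by norm_num) fun θ => dot_le θ.cx2 Th.cv0,
      aC (fun θ => T.dot θ.x3 v0) 3 (by norm_num) fun θ => dot_le θ.cx3 Th.cv0⟩
    (aL Th.e 1 zero_le_one Th.be)
    (aQ (fun θ => θ.lam * θ.e ^ 2) Lam hL Th.bl)
    (aC Th.c 1 zero_le_one Th.bc) (aC Th.s 1 zero_le_one Th.bs)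
    (aS Th.o1 Th.bo1) (aL Th.o1 1 zero_le_one Th.bo1)
    (aS Th.o2 Th.bo2) (aL Th.o2 1 zero_le_one Th.bo2)
    (aS Th.r Th.br) (aL Th.r 1 zero_le_one Th.br)
    (aS Th.k Th.bk) (aL Th.k 1 zero_le_one Th.bk)
    (aL Th.g1 1 zero_le_one Th.bg1) (aL Th.g2 1 zero_le_one Th.bg2)
    (aL Th.g3 1 zero_le_one Th.bg3) (aL Th.g4 1 zero_le_one Th.bg4)

theorem ev_elt (Lam : ℝ) (hL : 0 ≤ Lam) (θ : Th Lam) (t : ℝ) : AR.ev θ t (elt Lam hL) =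
    FPc θ.μ (θ.e * t) (θ.lam * (θ.e * t) ^ 2) θ.x1 θ.x2 θ.x3 θ.c θ.s (θ.o1 * t) (θ.o2 * t)
      (θ.r * t) (θ.k * t) (θ.g1 * t) (θ.g2 * t) (θ.g3 * t) (θ.g4 * t) := by
  unfold elt
  rw [map_PPc (AR.ev θ t) (fun _ _ => rfl) (fun _ _ => rfl) (fun _ _ => rfl) (fun _ => rfl)]
  have h1 : AR.ev θ t (aQ (fun θ : Th Lam => θ.lam * θ.e ^ 2) Lam hL Th.bl) =
      θ.lam * (θ.e * t) ^ 2 := by
    show θ.lam * θ.e ^ 2 * t ^ 2 = _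
    ring
  rw [h1]
  rfl

theorem se_elt (Lam : ℝ) (hL : 0 ≤ Lam) (θ : Th Lam) : AR.se θ (elt Lam hL) =
    ser (frS (W0 θ.μ) θ.x1 θ.x2 θ.x3) (frS Q0 θ.x1 θ.x2 θ.x3) (frV v0 θ.x1 θ.x2 θ.x3) θ.lam
      θ.c θ.s θ.o1 θ.o2 θ.r θ.k θ.g1 θ.g2 θ.g3 θ.g4 θ.e := by
  unfold elt
  rw [map_PPc (AR.se θ) (fun _ _ => rfl) (fun _ _ => rfl) (fun _ _ => rfl) (fun _ => rfl)]
  rfl

/-- TASK LOC -/
theorem LOC (h : St_ID1) : St_LOC := by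
  intro Lam hL
  obtain ⟨C, hC, -, happ⟩ := (elt Lam hL).2
  refine ⟨C + 1, by linarith, ?_⟩
  intro μ lam x1 x2 x3 c s o1 o2 r k g1 g2 g3 g4 e t hμ0 hμ1 hlam0 hlam1 hfr hcs hdir ht0 ht1
  have h1 := happ ⟨μ, lam, x1, x2, x3, c, s, o1, o2, r, k, g1, g2, g3, g4, e, hμ0, hμ1, hlam0,
    hlam1, hfr, hcs, hdir⟩ t ht0 ht1
  have h2 := ev_elt Lam hL ⟨μ, lam, x1, x2, x3, c, s, o1, o2, r, k, g1, g2, g3, g4, e, hμ0, hμ1,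
    hlam0, hlam1, hfr, hcs, hdir⟩ t
  have h3 := se_elt Lam hL ⟨μ, lam, x1, x2, x3, c, s, o1, o2, r, k, g1, g2, g3, g4, e, hμ0, hμ1,
    hlam0, hlam1, hfr, hcs, hdir⟩
  unfold AR.ev at h2
  unfold AR.se at h3
  rw [h2, h3] at h1
  obtain ⟨ha, hb⟩ := h (frS (W0 μ) x1 x2 x3) (frS Q0 x1 x2 x3) (frV v0 x1 x2 x3) lam c s o1 o2 r k
    g1 g2 g3 g4 e hcs
  dsimp only at h1
  rw [ha, hb, zero_mul, zero_add, zero_add] at h1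
  have ht3 : 0 ≤ t ^ 3 := pow_nonneg ht0 3
  refine le_trans (le_of_eq ?_) (h1.trans ?_)
  · unfold Hc
    congr 1
    ring
  · nlinarith

end H605HO
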